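import Pool.Agent.GTO.StmtsA

/-! Squad GTO, row VTX: number of topes at a vertex. -/

namespace Pool.Agent.GTO.H30

open Finset Pool.Agent.GTO
open scoped Classical

theorem ip_smul_left (t : ℝ) (u x : V) : ip (t • u) x = t * ip u x := by
  simp only [ip, Pi.smul_apply, smul_eq_mul]; ring

theorem ip_smul_right (t : ℝ) (u x : V) : ip u (t • x) = t * ip u x := by
  simp only [ip, Pi.smul_apply, smul_eq_mul]; ring

/-- a vector orthogonal to `u` and `v` is a multiple of `cr u v` -/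
theorem orth (u v x : V) (hc : cr u v ≠ 0) (hu : ip u x = 0) (hv : ip v x = 0) :
    ∃ t : ℝ, x = t • cr u v := by
  have hcc : ip (cr u v) (cr u v) ≠ 0 := by
    intro h
    apply hc
    have e : ip (cr u v) (cr u v) = (cr u v 0) ^ 2 + (cr u v 1) ^ 2 + (cr u v 2) ^ 2 := by
      simp only [ip]; ring
    rw [e] at h
    have h0 : cr u v 0 = 0 := by nlinarith [sq_nonneg (cr u v 0), sq_nonneg (cr u v 1), sq_nonneg (cr u v 2)]
    have h1 : cr u v 1 = 0 := by nlinarith [sq_nonneg (cr u v 0), sq_nonneg (cr u v 1), sq_nonneg (cr u v 2)]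
    have h2 : cr u v 2 = 0 := by nlinarith [sq_nonneg (cr u v 0), sq_nonneg (cr u v 1), sq_nonneg (cr u v 2)]
    funext k
    fin_cases k
    · exact h0
    · exact h1
    · exact h2
  refine ⟨ip (cr u v) x / ip (cr u v) (cr u v), ?_⟩
  have key : ip (cr u v) (cr u v) • x = ip (cr u v) x • cr u v := by
    have c0 : cr u v 0 = u 1 * v 2 - u 2 * v 1 := rfl
    have c1 : cr u v 1 = u 2 * v 0 - u 0 * v 2 := rfl
    have c2 : cr u v 2 = u 0 * v 1 - u 1 * v 0 := rfl
    funext k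
    fin_cases k
    · show ip (cr u v) (cr u v) * x 0 = ip (cr u v) x * cr u v 0
      simp only [ip] at hu hv ⊢
      rw [c0, c1, c2]
      linear_combination ((u 2 * v 0 - u 0 * v 2) * u 2 - (u 0 * v 1 - u 1 * v 0) * u 1) * hv -
        ((u 2 * v 0 - u 0 * v 2) * v 2 - (u 0 * v 1 - u 1 * v 0) * v 1) * hu
    · show ip (cr u v) (cr u v) * x 1 = ip (cr u v) x * cr u v 1
      simp only [ip] at hu hv ⊢
      rw [c0, c1, c2]
      linear_combination ((u 0 * v 1 - u 1 * v 0) * u 0 - (u 1 * v 2 - u 2 * v 1) * u 2) * hv -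
        ((u 0 * v 1 - u 1 * v 0) * v 0 - (u 1 * v 2 - u 2 * v 1) * v 2) * hu
    · show ip (cr u v) (cr u v) * x 2 = ip (cr u v) x * cr u v 2
      simp only [ip] at hu hv ⊢
      rw [c0, c1, c2]
      linear_combination ((u 1 * v 2 - u 2 * v 1) * u 1 - (u 2 * v 0 - u 0 * v 2) * u 0) * hv -
        ((u 1 * v 2 - u 2 * v 1) * v 1 - (u 2 * v 0 - u 0 * v 2) * v 0) * hu
  rw [div_eq_inv_mul, ← smul_smul, ← key, smul_smul, inv_mul_cancel₀ hcc, one_smul]

theorem sg_inj {b c : Bool} {r : ℝ} (h1 : 0 < sg b * r) (h2 : 0 < sg c * r) : b = c := by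
  cases b <;> cases c <;> simp [sg] at h1 h2 ⊢ <;> linarith

theorem ip_bv {ι : Type} (a : ι → V) (σ : ι → Bool) (i : ι) (x : V) :
    ip (bv a σ i) x = sg (σ i) * ip (a i) x := ip_smul_left _ _ _

section
variable {ι : Type} [Fintype ι] {κ : Type} [Fintype κ]

theorem sub_topes (hB : BasStmt) (hT : TotStmt) (a : ι → V) (hPI : PI a) {i j : ι} (hij : i ≠ j)
    (e : κ → ι) (he : Function.Injective e) (hr : ∀ k, k ∈ ln a i j ↔ ∃ m, e m = k)
    (hcard : Fintype.card κ = (ln a i j).card) :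
    (topes (fun k : κ => a (e k))).card ≤ 2 * (ln a i j).card := by
  obtain ⟨-, -, -, -, -, h6⟩ := hB
  obtain ⟨h7, h8, -⟩ := h6 ι a hPI
  obtain ⟨hi, hj⟩ := h8 i j hij
  obtain ⟨b, hb⟩ : ∃ b : κ → V, b = fun k => a (e k) := ⟨_, rfl⟩
  rw [← hb]
  have hPb : PI b := by
    intro k l hkl
    rw [hb]
    exact hPI (e k) (e l) fun h => hkl (he h)
  have h2 : 2 ≤ (ln a i j).card := by
    have : ({i, j} : Finset ι) ⊆ ln a i j := by
      intro k hk
      rcases mem_insert.1 hk with rfl | hk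
      · exact hi
      · rw [mem_singleton] at hk; rw [hk]; exact hj
    calc 2 = ({i, j} : Finset ι).card := (card_pair hij).symm
      _ ≤ _ := card_le_card this
  have hln : ∀ k l : κ, k ≠ l → ln b k l = univ := by
    intro k l hkl
    refine eq_univ_iff_forall.2 fun m => ?_
    have e1 := h7 i j (e k) (e l) hij (fun h => hkl (he h)) ((hr _).2 ⟨k, rfl⟩) ((hr _).2 ⟨l, rfl⟩)
    have hm : e m ∈ ln a (e k) (e l) := by rw [e1]; exact (hr _).2 ⟨m, rfl⟩
    unfold ln at hm ⊢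
    rw [mem_filter] at hm ⊢
    refine ⟨mem_univ _, ?_⟩
    rw [hb]
    exact hm.2
  obtain ⟨i', hi'⟩ := (hr i).1 hi
  obtain ⟨j', hj'⟩ := (hr j).1 hj
  have hij' : i' ≠ j' := by
    rintro rfl
    exact hij (hi'.symm.trans hj')
  have hlns : lns b = {univ} := by
    ext s
    unfold lns
    rw [mem_image, mem_singleton]
    constructor
    · rintro ⟨p, hp, rfl⟩
      exact hln p.1 p.2 (mem_filter.1 hp).2
    · rintro rfl
      exact ⟨(i', j'), mem_filter.2 ⟨mem_univ _, hij'⟩, hln _ _ hij'⟩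
  have h := hT _ b hPb (by rw [hcard]; exact h2)
  rw [h, hlns, sum_singleton, card_univ, hcard]
  omega

theorem half (hB : BasStmt) (hT : TotStmt) (a : ι → V) (hPI : PI a) {i j : ι} (hij : i ≠ j)
    (e : κ → ι) (he : Function.Injective e) (hr : ∀ k, k ∈ ln a i j ↔ ∃ m, e m = k)
    (hcard : Fintype.card κ = (ln a i j).card) (y : V) :
    (univ.filter fun σ : ι → Bool => Tope a σ ∧ ∀ k, k ∉ ln a i j → 0 < ip (bv a σ k) y).card ≤
      2 * (ln a i j).card := by
  refine le_trans ?_ (sub_topes hB hT a hPI hij e he hr hcard)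
  refine card_le_card_of_injOn (fun σ => fun k : κ => σ (e k)) ?_ ?_
  · intro σ hσ
    rw [mem_coe, mem_filter] at hσ
    unfold topes
    rw [mem_coe, mem_filter]
    refine ⟨mem_univ _, ?_⟩
    obtain ⟨x, hx⟩ := hσ.2.1
    exact ⟨x, fun k => hx (e k)⟩
  · intro σ hσ σ' hσ' h
    rw [mem_coe, mem_filter] at hσ hσ'
    funext k
    by_cases hk : k ∈ ln a i j
    · obtain ⟨m, rfl⟩ := (hr k).1 hk
      exact congrFun h m
    · have e1 := hσ.2.2 k hk
      have e2 := hσ'.2.2 k hk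
      rw [ip_bv] at e1 e2
      exact sg_inj e1 e2

theorem half' (hB : BasStmt) (hT : TotStmt) (a : ι → V) (hPI : PI a) {i j : ι} (hij : i ≠ j)
    (y : V) :
    (univ.filter fun σ : ι → Bool => Tope a σ ∧ ∀ k, k ∉ ln a i j → 0 < ip (bv a σ k) y).card ≤
      2 * (ln a i j).card :=
  half (κ := {k : ι // k ∈ ln a i j}) hB hT a hPI hij Subtype.val Subtype.val_injective
    (fun k => ⟨fun h => ⟨⟨k, h⟩, rfl⟩, by rintro ⟨m, rfl⟩; exact m.2⟩) (Fintype.card_coe _) y

end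

theorem vtx (hB : BasStmt) (hT : TotStmt) : VtxStmt := by
  intro ι _ a hPI hn ℓ hℓ
  rw [lns, mem_image] at hℓ
  obtain ⟨⟨i, j⟩, hp, rfl⟩ := hℓ
  have hij : i ≠ j := (mem_filter.1 hp).2
  obtain ⟨hi, hj⟩ : i ∈ ln a i j ∧ j ∈ ln a i j := (hB.2.2.2.2.2 ι a hPI).2.1 i j hij
  have hc : cr (a i) (a j) ≠ 0 := hPI i j hij
  have hsub : (univ.filter fun σ => Tope a σ ∧ ∃ x : V, x ≠ 0 ∧
      (∀ k ∈ ln a i j, ip (a k) x = 0) ∧ ∀ k, k ∉ ln a i j → 0 < ip (bv a σ k) x) ⊆
      (univ.filter fun σ : ι → Bool => Tope a σ ∧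
        ∀ k, k ∉ ln a i j → 0 < ip (bv a σ k) (cr (a i) (a j))) ∪
      (univ.filter fun σ : ι → Bool => Tope a σ ∧
        ∀ k, k ∉ ln a i j → 0 < ip (bv a σ k) ((-1 : ℝ) • cr (a i) (a j))) := by
    intro σ hσ
    obtain ⟨hT', x, hx0, hx1, hx2⟩ := (mem_filter.1 hσ).2
    obtain ⟨t, ht⟩ := orth (a i) (a j) x hc (hx1 i hi) (hx1 j hj)
    have ht0 : t ≠ 0 := by
      rintro rfl
      exact hx0 (by rw [ht, zero_smul])
    rw [mem_union, mem_filter, mem_filter]
    rcases lt_or_gt_of_ne ht0 with hneg | hpos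
    · right
      refine ⟨mem_univ _, hT', fun k hk => ?_⟩
      have h := hx2 k hk
      rw [ht, ip_smul_right] at h
      rw [ip_smul_right]
      nlinarith
    · left
      refine ⟨mem_univ _, hT', fun k hk => ?_⟩
      have h := hx2 k hk
      rw [ht, ip_smul_right] at h
      exact (mul_pos_iff_of_pos_left hpos).1 h
  have h1 := half' hB hT a hPI hij (cr (a i) (a j))
  have h2 := half' hB hT a hPI hij ((-1 : ℝ) • cr (a i) (a j))
  calc _ ≤ _ := card_le_card hsub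
    _ ≤ _ := card_union_le _ _
    _ ≤ 2 * (ln a i j).card + 2 * (ln a i j).card := Nat.add_le_add h1 h2
    _ = _ := by ring

end Pool.Agent.GTO.H30
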